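import Pool.Agent.H10.GM.Targets1

/-!
# A large mesh gives a grid
-/

set_option autoImplicit false

namespace Pool.Agent.H55.GM

open Pool.Agent.H55.GW Pool.Agent.H10.GM

theorem grM_mono {V : Type} {r : ℕ} {E E' : V → V → Prop} (h : GrM r E)
    (hE : ∀ u v, E u v → E' u v) : GrM r E' := by
  obtain ⟨B, h1, h2, h3, h4⟩ := h
  refine ⟨B, fun i hi j hj => (h1 i hi j hj).mono fun u v _ _ h => hE u v h, h2,
    fun i j hi hj => ?_, fun i j hi hj => ?_⟩
  · obtain ⟨a, ha, b, hb, hab⟩ := h3 i j hi hj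
    exact ⟨a, ha, b, hb, hE a b hab⟩
  · obtain ⟨a, ha, b, hb, hab⟩ := h4 i j hi hj
    exact ⟨a, ha, b, hb, hE a b hab⟩

theorem pf_MGR (hSEL : T_SEL) (hSPL : T_SPL) (hLNC : T_LNC) (hKM : T_KM) (hKG : T_KG) :
    T_MGR := by
  intro r
  obtain ⟨κ, hκ, hsel⟩ := hSEL r (r * r * (r * r))
  refine ⟨κ, 3 * κ * (r * r) + 1, Nat.succ_pos _, ?_⟩
  intro V _ E hE C U T hM
  obtain ⟨hP, hh, hL⟩ := hM
  have : Nonempty V := ⟨hP.cnC.1.some⟩
  have hX : 3 * κ * (r * r) ≤ (U ∩ Nb E C).ncard := by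
    rw [Set.inter_eq_right.2 hP.nb, hh]
    exact Nat.le_succ _
  obtain ⟨A, hA1, hA2⟩ := hSPL κ (r * r) V T hP.sy U (Nb E C) hκ hP.cnU hP.d3 hX
  have hY : ∀ i, ∃ Y : Set V, i < r * r → Y ⊆ A i ∩ Nb E C ∧ Y.ncard = κ := by
    intro i
    by_cases hi : i < r * r
    · obtain ⟨Y, hY1, hY2⟩ := Set.exists_subset_card_eq (hA1 i hi).2.2
      exact ⟨Y, fun _ => ⟨hY1, hY2⟩⟩
    · exact ⟨∅, fun h => absurd h hi⟩
  choose Y hY using hY
  have hYC : ∀ i < r * r, Disjoint (Y i) C := fun i hi =>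
    Set.disjoint_left.2 fun v hv hc => (((hY i hi).1 hv).2).1 hc
  have hNL : ∀ i j, i < j → j < r * r → Lnk (rs E C) κ {c | c ∈ C ∧ ∃ a ∈ Y i, E c a}
      {c | c ∈ C ∧ ∃ a ∈ Y j, E c a} := by
    intro i j hij hj
    have hi : i < r * r := lt_trans hij hj
    have h1 := hY i hi
    have h2 := hY j hj
    exact hLNC V E hE κ C (Y i) (Y j) (hYC i hi) (hYC j hj)
      ((hA2 i hi j hj (ne_of_lt hij)).mono (fun v hv => (h1.1 hv).1) fun v hv => (h2.1 hv).1)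
      (hL (Y i) (Y j) (fun v hv => (h1.1 hv).2) (fun v hv => (h2.1 hv).2) h1.2 h2.2)
  obtain ⟨J, hJc, hJm, hJp⟩ : ∃ J : Finset ℕ, J.card ≤ r * r * (r * r) ∧
      (∀ j ∈ J, (Nat.unpair j).1 < (Nat.unpair j).2 ∧ (Nat.unpair j).2 < r * r) ∧
      ∀ i j, i < j → j < r * r → Nat.pair i j ∈ J := by
    classical
    refine ⟨((Finset.range (r * r) ×ˢ Finset.range (r * r)).filter fun p => p.1 < p.2).image
      (fun p => Nat.pair p.1 p.2), ?_, ?_, ?_⟩
    · refine le_trans Finset.card_image_le (le_trans (Finset.card_filter_le _ _) ?_)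
      rw [Finset.card_product, Finset.card_range]
    · intro j hj
      obtain ⟨p, hp, rfl⟩ := Finset.mem_image.1 hj
      obtain ⟨hp1, hp2⟩ := Finset.mem_filter.1 hp
      rw [Nat.unpair_pair]
      exact ⟨hp2, Finset.mem_range.1 (Finset.mem_product.1 hp1).2⟩
    · intro i j hij hj
      exact Finset.mem_image.2 ⟨(i, j), Finset.mem_filter.2 ⟨Finset.mem_product.2
        ⟨Finset.mem_range.2 (lt_trans hij hj), Finset.mem_range.2 hj⟩, hij⟩, rfl⟩
  rcases hsel V (rs E C) (rs_sy hE) J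
      (fun j => {c | c ∈ C ∧ ∃ a ∈ Y (Nat.unpair j).1, E c a})
      (fun j => {c | c ∈ C ∧ ∃ a ∈ Y (Nat.unpair j).2, E c a}) hJc
      (fun j hj => hNL _ _ (hJm j hj).1 (hJm j hj).2) with hg | hc
  · exact grM_mono hg fun u v h => h.1
  · obtain ⟨x, y, S, h1, h2⟩ := hc
    obtain ⟨B, hB1, hB2, hB3⟩ := hKM (r * r) V E hE A C
      (fun i hi => ⟨(hA1 i hi).1.mono fun u v _ _ h => hP.le u v h,
        hP.dj.mono_left (hA1 i hi).2.1⟩) hA2
      (fun i j => x (Nat.pair i j)) (fun i j => y (Nat.pair i j)) (fun i j => S (Nat.pair i j))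
      (by
        intro i j hij hj
        have h3 := h1 _ (hJp i j hij hj)
        simp only [Nat.unpair_pair] at h3
        obtain ⟨⟨h4, a, ha, h5⟩, ⟨h6, b, hb, h7⟩, h8⟩ := h3
        exact ⟨h4, h6, ⟨a, ((hY i (lt_trans hij hj)).1 ha).1, h5⟩,
          ⟨b, ((hY j hj).1 hb).1, h7⟩, h8⟩)
      (by
        intro i j hij hj i' j' hij' hj' hne
        refine h2 _ (hJp i j hij hj) _ (hJp i' j' hij' hj') fun he => ?_
        have h3 := Nat.pair_eq_pair.1 he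
        rcases hne with h | h
        · exact h h3.1
        · exact h h3.2)
    exact hKG r V E hE B hB1 hB2 hB3

end Pool.Agent.H55.GM
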